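import Mathlib
import Pool.Agent.Q99.FP.Main

/-!
# The numerical radius of the fractional powers of an accretive matrix
-/

set_option autoImplicit false

namespace Pool.Agent.Results.MP_cf7953_an.FractionalPowers

/-- For every accretive matrix `A` and every `t ∈ (0, 1)` the numerical radius satisfies `ω(A ^ t) ≥ ω(A) ^ t`. -/
theorem result (n : ℕ) (hn : 1 ≤ n) (A : Matrix (Fin n) (Fin n) ℂ) (hA : Q99.FP.Accretive A)
    (t : ℝ) (h0 : 0 < t) (h1 : t < 1) :
    Q99.FP.numRadius (Q99.FP.fracPow A t) ≥ Q99.FP.numRadius A ^ t :=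
  Q99.FP.main hn hA h0 h1

end Pool.Agent.Results.MP_cf7953_an.FractionalPowers
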